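import Pool.Agent.H741R2.LJPoly
import Pool.Agent.H257R2.LJW.Clique

/-!
# Single-machine throughput scheduling with release dates is W[1]-hard for the parameter `p_max`

Both `1 | r_j | ∑ U_j` and `1 | r_j | ∑ w_j U_j`, parameterized by the maximum processing time, are
W[1]-hard under fpt-reductions (even NP-hard for processing times at most `13`, so they are not in
XP unless P = NP).

`Jobs`, `WJobs`, `pmax`, `wpmax`, `InXP` are defined in Pool/Agent/H257R2/LJW/Defs.lean, schedules
and late jobs in Pool/Agent/H741R2/LJDefs.lean, `W1Hard` (hardness for the class W[1] under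
fpt-reductions computed by Turing machines) in Pool/Agent/H633R2/FptDefs.lean.

The reduction from 3SAT with processing times at most `13` is the one of the starting files
Pool/Agent/H741R2/LJ*.lean; the passage to W[1] is in Pool/Agent/H257R2/LJW/Clique.lean.
-/

set_option autoImplicit false

namespace Pool.Agent.Results.MP_4ed2ca_lc.ThroughputW1Hard

open Pool.Agent.NPC Pool.Agent.H633R2 Pool.Agent.H741R2.LJ Pool.Agent.H257R2.LJW

theorem foldr_le {α : Type} (f : α → ℕ) (c : ℕ) : ∀ l : List α, (∀ j ∈ l, f j ≤ c) →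
    l.foldr (fun j m => max (f j) m) 0 ≤ c
  | [], _ => Nat.zero_le _
  | a :: l, h => by
    rw [List.foldr_cons]
    exact max_le (h a List.mem_cons_self) (foldr_le f c l fun j hj => h j (List.mem_cons_of_mem _ hj))

theorem le_foldr {α : Type} (f : α → ℕ) : ∀ (l : List α) (a : α), a ∈ l →
    f a ≤ l.foldr (fun j m => max (f j) m) 0
  | b :: l, a, h => by
    rw [List.foldr_cons]
    rcases List.mem_cons.1 h with rfl | h
    · exact le_max_left _ _
    · exact (le_foldr f l a h).trans (le_max_right _ _)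

/-- `LateJobs c` is the question `Jobs` for the instances with `p_max ≤ c`. -/
theorem late_jobs_iff {c : ℕ} (I : List (ℕ × ℕ × ℤ) × ℕ) (h : pmax I ≤ c) :
    LateJobs c I ↔ Jobs I := by
  unfold LateJobs Jobs
  refine and_congr_left fun _ => ⟨fun h1 j hj => (h1 j hj).1, fun h1 j hj => ⟨h1 j hj, ?_⟩⟩
  exact (le_foldr (fun j : ℕ × ℕ × ℤ => j.2.1) I.1 j hj).trans h

theorem wlate_jobs_iff {c : ℕ} (I : List (ℕ × ℕ × ℤ × ℕ) × ℕ) (h : wpmax I ≤ c)
    (hw : ∀ j ∈ I.1, 1 ≤ j.2.2.2) : WeightedLateJobs c I ↔ WJobs I := by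
  unfold WeightedLateJobs WJobs
  refine and_congr_left fun _ => ⟨fun h1 j hj => ⟨(h1 j hj).1, hw j hj⟩,
    fun h1 j hj => ⟨(h1 j hj).1, ?_⟩⟩
  exact (le_foldr (fun j : ℕ × ℕ × ℤ × ℕ => j.2.1) I.1 j hj).trans h

theorem pmax_inst (φ : List Cl) : pmax (inst φ) ≤ 13 := by
  refine foldr_le (fun j : ℕ × ℕ × ℤ => j.2.1) 13 _ fun j hj => ?_
  unfold inst at hj
  obtain ⟨x, _, rfl⟩ := List.mem_map.1 hj
  exact len_le _ _

theorem wpmax_inst (φ : List Cl) : wpmax (instW φ) ≤ 13 := by
  refine foldr_le (fun j : ℕ × ℕ × ℤ × ℕ => j.2.1) 13 _ fun j hj => ?_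
  unfold instW at hj
  obtain ⟨x, _, rfl⟩ := List.mem_map.1 hj
  exact len_le _ _

theorem weight_inst (φ : List Cl) : ∀ j ∈ (instW φ).1, 1 ≤ j.2.2.2 := by
  intro j hj
  unfold instW at hj
  obtain ⟨x, _, rfl⟩ := List.mem_map.1 hj
  exact le_rfl

theorem hard_jobs : HardPr (fun I => pmax I ≤ 13) Jobs :=
  hardI_SAT3.toHardPr.trans inst_poly (fun φ _ => pmax_inst φ) fun φ _ =>
    (inst_correct le_rfl φ).trans (late_jobs_iff _ (pmax_inst φ))

theorem hard_wjobs : HardPr (fun I => wpmax I ≤ 13) WJobs :=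
  hardI_SAT3.toHardPr.trans instW_poly (fun φ _ => wpmax_inst φ) fun φ _ =>
    (instW_correct le_rfl φ).trans (wlate_jobs_iff _ (wpmax_inst φ) (weight_inst φ))

/-- **Throughput scheduling on one machine with release dates, parameterized by the maximum
processing time, is W[1]-hard**, for unit weights (Q1) and for arbitrary weights (Q2). Moreover
neither problem is in XP, unless every problem in NP is in P. -/
theorem result :
    W1Hard pmax Jobs ∧ W1Hard wpmax WJobs ∧
      (InXP pmax Jobs → ∀ L : Set (List Bool), InNP L → InP L) ∧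
      (InXP wpmax WJobs → ∀ L : Set (List Bool), InNP L → InP L) :=
  ⟨w1Hard_of_hardPr 13 hard_jobs, w1Hard_of_hardPr 13 hard_wjobs,
    xp_collapse 13 hard_jobs, xp_collapse 13 hard_wjobs⟩

end Pool.Agent.Results.MP_4ed2ca_lc.ThroughputW1Hard
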